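import Mathlib
import Pool.Agent.V11117.FR66P

/-!
MP_884c22_co, Q1: yes. There is a graph on 66 vertices with proper fractional revival on `{a, b}`
for which `6 + 2√5 + 8√2`, of degree four over the rationals, lies in the eigenvalue support of `a`.
-/

namespace Pool.Agent.Results.MP_884c22_co.QuarticSupport

open Pool.Agent.V11117 Pool.Agent.V11117.FRDef Pool.Agent.V11117.FR66

/-- Proper fractional revival on `{a, b}`. -/
def ProperRevival {V : Type} [Fintype V] [DecidableEq V] (X : SimpleGraph V) [DecidableRel X.Adj]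
    (a b : V) : Prop :=
  a ≠ b ∧ ∃ t : ℝ, 0 < t ∧ ∃ α β : ℂ, α ≠ 0 ∧ β ≠ 0 ∧
    (walk X t).mulVec (Pi.single a 1) = α • Pi.single a 1 + β • Pi.single b 1

/-- The eigenvalue support of `a`: the real `θ` with `E_θ e_a ≠ 0`. -/
def support {V : Type} [Fintype V] [DecidableEq V] (X : SimpleGraph V) [DecidableRel X.Adj]
    (a : V) : Set ℝ :=
  {θ : ℝ | proj X θ (EuclideanSpace.single a 1) ≠ 0}

lemma irr2 : Irrational (Real.sqrt 2) := irrational_sqrt_two

lemma sq_ne (n : ℕ) (hn : Irrational (Real.sqrt n)) (x y : ℚ) (h : x ^ 2 = n * y ^ 2) : y = 0 := by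
  by_contra hy
  apply hn
  refine ⟨|x / y|, ?_⟩
  have h1 : (n : ℝ) = ((x / y : ℚ) : ℝ) ^ 2 := by
    have : (n : ℚ) = (x / y) ^ 2 := by
      field_simp
      linarith
    exact_mod_cast this
  rw [h1, Real.sqrt_sq_eq_abs]
  push_cast
  rfl

lemma irr5 : Irrational (Real.sqrt (5 : ℕ)) := Nat.Prime.irrational_sqrt (by norm_num)

lemma irr10 : Irrational (Real.sqrt (10 : ℕ)) := by
  rw [irrational_sqrt_natCast_iff]
  rintro ⟨r, hr⟩
  have h1 : r ≤ 3 := by nlinarith
  interval_cases r <;> omega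

/-- `1, √2, √5, √10` are linearly independent (the part needed here) -/
lemma indep (x y z w : ℚ)
    (h : (x : ℝ) + y * Real.sqrt 2 + z * Real.sqrt 5 + w * (Real.sqrt 2 * Real.sqrt 5) = 0) :
    w = 0 := by
  have h2 := sq2
  have h5 := sq5
  have e1 : ((x : ℝ) ^ 2 + 2 * y ^ 2 - 5 * z ^ 2 - 10 * w ^ 2) +
      (2 * x * y - 10 * z * w) * Real.sqrt 2 = 0 := by
    have e2 : ((x : ℝ) + y * Real.sqrt 2) ^ 2 = 5 * (z + w * Real.sqrt 2) ^ 2 := by
      have e3 : (x : ℝ) + y * Real.sqrt 2 = -(Real.sqrt 5 * (z + w * Real.sqrt 2)) := by linarith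
      rw [e3, neg_sq, mul_pow, h5]
    linear_combination e2 + (-(y : ℝ) ^ 2 + 5 * w ^ 2) * h2
  have e4 : 2 * x * y - 10 * z * w = 0 := by
    by_contra hne
    apply irr2
    refine ⟨-(x ^ 2 + 2 * y ^ 2 - 5 * z ^ 2 - 10 * w ^ 2) / (2 * x * y - 10 * z * w), ?_⟩
    have hne' : (2 * (x : ℝ) * y - 10 * z * w) ≠ 0 := by exact_mod_cast hne
    push_cast
    rw [div_eq_iff hne']
    linarith
  have e5 : x ^ 2 + 2 * y ^ 2 - 5 * z ^ 2 - 10 * w ^ 2 = 0 := by
    have e4' : (2 * (x : ℝ) * y - 10 * z * w) = 0 := by exact_mod_cast e4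
    rw [e4', zero_mul, add_zero] at e1
    exact_mod_cast e1
  have e6 : (x ^ 2 - 2 * y ^ 2 - 5 * (z ^ 2 - 2 * w ^ 2)) *
      (x ^ 2 - 2 * y ^ 2 + 5 * (z ^ 2 - 2 * w ^ 2)) = 0 := by
    have e7 : x * y = 5 * z * w := by linarith
    have e8 : x ^ 2 + 2 * y ^ 2 = 5 * z ^ 2 + 10 * w ^ 2 := by linarith
    have e9 : (x * y) ^ 2 = (5 * z * w) ^ 2 := by rw [e7]
    have e10 : (x ^ 2 + 2 * y ^ 2) ^ 2 = (5 * z ^ 2 + 10 * w ^ 2) ^ 2 := by rw [e8]
    linear_combination e10 - 8 * e9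
  rcases mul_eq_zero.1 e6 with h7 | h7
  · have h8 : x ^ 2 = (5 : ℕ) * z ^ 2 := by push_cast; linarith
    have h9 : y ^ 2 = (5 : ℕ) * w ^ 2 := by push_cast; linarith
    exact sq_ne 5 irr5 y w h9
  · have h8 : x ^ 2 = (10 : ℕ) * w ^ 2 := by push_cast; linarith
    exact sq_ne 10 irr10 x w h8

/-- the eigenvalue -/
noncomputable def θ : ℝ := 6 + 2 * Real.sqrt 5 + 8 * Real.sqrt 2

lemma no_quad (p q : ℚ) : θ ^ 2 + p * θ + q ≠ 0 := by
  intro h
  have h2 := sq2
  have h5 := sq5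
  have e : ((184 + 6 * p + q : ℚ) : ℝ) + ((96 + 8 * p : ℚ) : ℝ) * Real.sqrt 2 +
      ((24 + 2 * p : ℚ) : ℝ) * Real.sqrt 5 + ((32 : ℚ) : ℝ) * (Real.sqrt 2 * Real.sqrt 5) = 0 := by
    unfold θ at h
    push_cast
    linear_combination h - 4 * h5 - 64 * h2
  have := indep _ _ _ _ e
  norm_num at this

lemma integral : IsIntegral ℚ θ := by
  have hs : ∀ n : ℕ, IsIntegral ℚ (Real.sqrt n) := by
    intro n
    refine ⟨Polynomial.X ^ 2 - Polynomial.C (n : ℚ), Polynomial.monic_X_pow_sub_C _ (by norm_num),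
      ?_⟩
    have : Real.sqrt n ^ 2 = (n : ℝ) := Real.sq_sqrt (by positivity)
    simp [this]
  have hc : ∀ q : ℚ, IsIntegral ℚ (q : ℝ) := fun q => isIntegral_algebraMap (R := ℚ) (A := ℝ) (x := q)
  have h5 := hs 5
  have h2 := hs 2
  have h6 := hc 6
  have h22 := hc 2
  have h8 := hc 8
  push_cast at h5 h2 h6 h22 h8
  exact (h6.add (h22.mul h5)).add (h8.mul h2)

lemma degree : 3 ≤ (minpoly ℚ θ).natDegree := by
  by_contra hcon
  push Not at hcon
  have hpos : 0 < (minpoly ℚ θ).natDegree := minpoly.natDegree_pos integral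
  have hm : (minpoly ℚ θ).Monic := minpoly.monic integral
  have hz : Polynomial.aeval θ (minpoly ℚ θ) = 0 := minpoly.aeval ℚ θ
  rw [Polynomial.aeval_eq_sum_range] at hz
  have hcases : (minpoly ℚ θ).natDegree = 1 ∨ (minpoly ℚ θ).natDegree = 2 := by omega
  rcases hcases with h1 | h1
  · rw [h1, Finset.sum_range_succ, Finset.sum_range_succ, Finset.sum_range_zero] at hz
    have hl : (minpoly ℚ θ).coeff 1 = 1 := by
      have := hm.coeff_natDegree
      rwa [h1] at this
    rw [hl] at hz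
    simp only [zero_add, pow_zero, pow_one, one_smul] at hz
    have hz' : ((minpoly ℚ θ).coeff 0 : ℝ) + θ = 0 := by
      rw [Rat.smul_def, mul_one] at hz
      exact hz
    apply no_quad ((minpoly ℚ θ).coeff 0) 0
    have : θ ^ 2 + ((minpoly ℚ θ).coeff 0 : ℝ) * θ + ((0 : ℚ) : ℝ) =
        θ * (((minpoly ℚ θ).coeff 0 : ℝ) + θ) := by push_cast; ring
    rw [this, hz', mul_zero]
  · rw [h1, Finset.sum_range_succ, Finset.sum_range_succ, Finset.sum_range_succ,
      Finset.sum_range_zero] at hz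
    have hl : (minpoly ℚ θ).coeff 2 = 1 := by
      have := hm.coeff_natDegree
      rwa [h1] at this
    rw [hl] at hz
    simp only [zero_add, pow_zero, pow_one, one_smul] at hz
    rw [Rat.smul_def, Rat.smul_def, mul_one] at hz
    apply no_quad ((minpoly ℚ θ).coeff 1) ((minpoly ℚ θ).coeff 0)
    linarith

/-- The answer to Q1 is yes: there is a graph with proper fractional revival on `{a, b}` such that
the eigenvalue support of `a` contains an eigenvalue of degree at least three over `ℚ`. -/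
theorem result : ∃ (V : Type) (_ : Fintype V) (_ : DecidableEq V) (X : SimpleGraph V)
    (_ : DecidableRel X.Adj) (a b : V), ProperRevival X a b ∧
      ∃ θ ∈ support X a, 3 ≤ (minpoly ℚ θ).natDegree := by
  refine ⟨Vt, inferInstance, inferInstance, FR66.X, inferInstance, va, vb, ⟨by decide, τ, τ_pos,
    α, β, α_ne, β_ne, revival⟩, θ, ?_, degree⟩
  have hθ : θ = 4 + 4 * g + ω := by
    unfold θ ω
    rw [val_g]
  show proj FR66.X θ (EuclideanSpace.single va 1) ≠ 0
  rw [hθ, proj_a_w]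
  intro h0
  have h1 := congrArg (fun v : EuclideanSpace ℝ Vt => v (false, some (true, 0, 0))) h0
  simp only [PiLp.smul_apply, PiLp.zero_apply, smul_eq_mul, Function.comp_apply] at h1
  have hg : g ≠ 0 := by
    intro h
    have := g_sq
    rw [h] at this
    norm_num at this
  have h5 := s5_pos.ne'
  have hw : w1 g ω (cell (false, some (true, 0, 0))) = 4 / 256 := rfl
  rw [hw] at h1
  have : g / Real.sqrt 5 ≠ 0 := div_ne_zero hg h5
  apply mul_ne_zero this (by norm_num : (4 / 256 : ℝ) ≠ 0) h1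

end Pool.Agent.Results.MP_884c22_co.QuarticSupport
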